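import Mathlib

/-!
# The number of exceptional members of an independent family of subgroups
-/

set_option autoImplicit false
set_option linter.all false

namespace Pool.Agent.L5helper29.ID

open Finset Filter

section

variable {Γ : Type*} [Group Γ] {J : Type*} (N : J → Subgroup Γ) (NB : Subgroup Γ)

lemma iInf_mono' {S T : Finset J} (h : S ⊆ T) : (⨅ i ∈ T, N i) ≤ ⨅ i ∈ S, N i :=
  le_iInf₂ fun i hi => iInf₂_le i (h hi)

/-- finite families -/
theorem exc_finite [DecidableEq J] (hB : NB.index ≠ 0)
    (hI : ∀ (F : Finset J) (j : J), j ∉ F → ¬ (⨅ i ∈ F, N i) ≤ N j) :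
    ∀ (n : ℕ) (T : Finset J), T.card = n → ∃ E ⊆ T,
      (∀ j ∈ T \ E, ¬ (NB ⊓ ⨅ i ∈ (T \ E).erase j, N i) ≤ N j) ∧
      2 ^ E.card * NB.relIndex (⨅ i ∈ T, N i) ≤ NB.index := by
  intro n
  have hB' : NB.relIndex ⊤ ≠ 0 := by rwa [Subgroup.relIndex_top_right]
  induction n with
  | zero =>
    intro T hT
    rw [card_eq_zero] at hT
    subst hT
    refine ⟨∅, subset_rfl, fun j hj => absurd (mem_sdiff.1 hj).1 (notMem_empty j), ?_⟩
    rw [card_empty, pow_zero, one_mul, ← Subgroup.relIndex_top_right]
    exact Subgroup.relIndex_le_of_le_right le_top hB'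
  | succ n ih =>
    intro T hT
    by_cases hgood : ∀ j ∈ T, ¬ (NB ⊓ ⨅ i ∈ T.erase j, N i) ≤ N j
    · refine ⟨∅, empty_subset _, by rw [sdiff_empty]; exact hgood, ?_⟩
      rw [card_empty, pow_zero, one_mul, ← Subgroup.relIndex_top_right]
      exact Subgroup.relIndex_le_of_le_right le_top hB'
    · push Not at hgood
      obtain ⟨j, hj, hle⟩ := hgood
      obtain ⟨E, hE, h1, h2⟩ := ih (T.erase j) (by rw [card_erase_of_mem hj, hT]; rfl)
      have hjE : j ∉ E := fun h => (notMem_erase j T) (hE h)
      have hsd : T \ insert j E = T.erase j \ E := by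
        ext i
        simp only [Finset.mem_sdiff, Finset.mem_insert, Finset.mem_erase, not_or]
        tauto
      refine ⟨insert j E, ?_, ?_, ?_⟩
      · intro i hi
        rcases mem_insert.1 hi with rfl | hi
        · exact hj
        · exact mem_of_mem_erase (hE hi)
      · rw [hsd]
        exact h1
      · rw [card_insert_of_notMem hjE, pow_succ, mul_assoc]
        refine le_trans (Nat.mul_le_mul_left _ ?_) h2
        set K := ⨅ i ∈ T, N i with hK
        set K' := ⨅ i ∈ T.erase j, N i with hK'
        have hKK' : K ≤ K' := iInf_mono' N (erase_subset j T)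
        have hKj : K ≤ N j := iInf₂_le j hj
        have hle' : K' ⊓ N j ≤ K := by
          refine le_iInf₂ fun i hi => ?_
          by_cases hij : i = j
          · subst hij
            exact inf_le_right
          · exact inf_le_left.trans (iInf₂_le i (mem_erase.2 ⟨hij, hi⟩))
        have heq : NB ⊓ K' = NB ⊓ K := by
          apply le_antisymm
          · exact le_inf inf_le_left ((le_inf inf_le_right hle).trans hle')
          · exact inf_le_inf le_rfl hKK'
        have e1 : NB.relIndex K' = (NB ⊓ K).relIndex K' := by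
          rw [← heq, Subgroup.inf_relIndex_right]
        have e2 : NB.relIndex K = (NB ⊓ K).relIndex K := by
          rw [Subgroup.inf_relIndex_right]
        have e3 := Subgroup.relIndex_mul_relIndex (NB ⊓ K) K K' inf_le_right hKK'
        have hne : NB.relIndex K' ≠ 0 := by
          have h9 : NB.FiniteIndex := ⟨hB⟩
          have h10 : (NB.subgroupOf K').FiniteIndex := inferInstance
          exact h10.index_ne_zero
        rw [e1, ← e3] at hne ⊢
        rw [e2, mul_comm]
        apply Nat.mul_le_mul_left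
        have h6 : K.relIndex K' ≠ 0 := fun h => hne (by rw [h, mul_zero])
        have h7 : K.relIndex K' ≠ 1 := by
          intro h
          rw [Subgroup.relIndex_eq_one] at h
          exact hI (T.erase j) j (notMem_erase j T) (h.trans hKj)
        omega

/-- **The exceptional members.** -/
theorem exc_all [DecidableEq J] (hB : NB.index ≠ 0)
    (hI : ∀ (F : Finset J) (j : J), j ∉ F → ¬ (⨅ i ∈ F, N i) ≤ N j) :
    ∃ E : Set J, E.Finite ∧ 2 ^ E.ncard ≤ NB.index ∧
      ∀ F : Finset J, Disjoint (F : Set J) E →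
        ∀ j ∈ F, ¬ (NB ⊓ ⨅ i ∈ F.erase j, N i) ≤ N j := by
  classical
  have h1 : ∀ T : Finset J, ∃ E ⊆ T,
      (∀ j ∈ T \ E, ¬ (NB ⊓ ⨅ i ∈ (T \ E).erase j, N i) ≤ N j) ∧ 2 ^ E.card ≤ NB.index := by
    intro T
    obtain ⟨E, hE, h1, h2⟩ := exc_finite N NB hB hI _ T rfl
    refine ⟨E, hE, h1, le_trans ?_ h2⟩
    have h9 : NB.FiniteIndex := ⟨hB⟩
    have h10 : (NB.subgroupOf (⨅ i ∈ T, N i)).FiniteIndex := inferInstance
    have h11 : NB.relIndex (⨅ i ∈ T, N i) ≠ 0 := h10.index_ne_zero
    exact Nat.le_mul_of_pos_right _ (Nat.pos_of_ne_zero h11)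
  choose e he1 he2 he3 using h1
  let U : Ultrafilter (Finset J) := Ultrafilter.of atTop
  have hU : ∀ T : Finset J, ∀ᶠ S in (U : Filter (Finset J)), T ⊆ S := fun T =>
    (Ultrafilter.of_le atTop) (eventually_ge_atTop T)
  set E : Set J := {j | ∀ᶠ T in (U : Filter (Finset J)), j ∈ e T} with hEdef
  have hsub : ∀ F : Finset J, (F : Set J) ⊆ E → 2 ^ F.card ≤ NB.index := by
    intro F hF
    have h2 : ∀ᶠ T in (U : Filter (Finset J)), ∀ j ∈ F, j ∈ e T := by
      rw [Filter.eventually_all_finset]
      intro j hj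
      exact hF hj
    obtain ⟨T, hT⟩ := h2.exists
    exact (Nat.pow_le_pow_right (by norm_num) (card_le_card fun j hj => hT j hj)).trans (he3 T)
  have hfin : E.Finite := by
    by_contra hinf
    obtain ⟨F, hF, hc⟩ := (show E.Infinite from hinf).exists_subset_card_eq (NB.index)
    have := hsub F hF
    rw [hc] at this
    exact absurd (Nat.lt_two_pow_self (n := NB.index)) (not_lt.2 this)
  refine ⟨E, hfin, ?_, ?_⟩
  · have := hsub hfin.toFinset (by simp)
    rwa [← Set.ncard_eq_toFinset_card E hfin] at this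
  · intro F hF j hj hle
    have h2 : ∀ᶠ T in (U : Filter (Finset J)), ∀ i ∈ F, i ∉ e T := by
      rw [Filter.eventually_all_finset]
      intro i hi
      have h3 : ¬ ∀ᶠ T in (U : Filter (Finset J)), i ∈ e T := fun h4 =>
        (Set.disjoint_left.1 hF) (show i ∈ (F : Set J) from hi) h4
      exact Ultrafilter.eventually_not.2 h3
    obtain ⟨T, hT1, hT2⟩ := (h2.and (hU F)).exists
    have hFT : F ⊆ T \ e T := fun i hi => mem_sdiff.2 ⟨hT2 hi, hT1 i hi⟩
    refine he2 T j (hFT hj) (le_trans ?_ hle)
    exact inf_le_inf le_rfl (iInf_mono' N (erase_subset_erase j hFT))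

end

/-- the index of the stabilizer of a finite set -/
theorem index_stab {Γ : Type*} [Group Γ] {X : Type*} [Fintype X] [DecidableEq X] [MulAction Γ X] :
    (MulAction.toPermHom Γ X).ker.index ≠ 0 ∧
      (MulAction.toPermHom Γ X).ker.index ≤ (Fintype.card X).factorial := by
  classical
  rw [Subgroup.index_ker]
  constructor
  · exact Nat.card_pos.ne'
  · rw [← Fintype.card_perm, ← Nat.card_eq_fintype_card]
    exact Nat.card_le_card_of_injective _ (Subtype.val_injective)

end Pool.Agent.L5helper29.ID
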