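import Pool.Agent.TH121.KT.GeoDefs

/-!
# Independent families of sets of Weil numbers of unitary type: definitions
-/

set_option autoImplicit false
set_option linter.all false

open CategoryTheory AlgebraicGeometry Polynomial

universe u v

namespace Pool.Agent.L5helper29.ID

open Pool.Agent.H914 Pool.Agent.H914.VarClass Pool.Agent.H914.VarClass.Obj
  Pool.Agent.H914.WeilCohomology Pool.Agent.W534

/-- The automorphism `τ` of `ℂ` is the identity on `M`. -/
def Fixes (M : Subfield ℂ) (τ : ℂ ≃+* ℂ) : Prop := ∀ x ∈ M, τ x = x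

/-- The automorphisms of `ℂ` over `M` map `S` to itself. -/
def Stable (M : Subfield ℂ) (S : Finset ℂ) : Prop :=
  ∀ τ : ℂ ≃+* ℂ, Fixes M τ → ∀ x ∈ S, τ x ∈ S

/-- `S` is a set of nonzero numbers of the same absolute value, stable under the automorphisms
of `ℂ` over `M`, and a power of its product is a power of `p`. -/
structure Block (p : ℕ) (M : Subfield ℂ) (S : Finset ℂ) : Prop where
  ne_zero : ∀ x ∈ S, x ≠ 0
  norm : ∀ x ∈ S, ∀ y ∈ S, ‖x‖ = ‖y‖
  stable : Stable M S
  det : ∃ N : ℕ, 0 < N ∧ ∃ k : ℤ, (∏ x ∈ S, x) ^ N = (p : ℂ) ^ k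

/-- The automorphisms of `ℂ` over `M` act doubly transitively on `S`, or transitively if the number
of the elements of `S` is a prime number, and some quotient of two elements of `S` is not a root of
unity. -/
def Large (M : Subfield ℂ) (S : Finset ℂ) : Prop :=
  ((∀ x ∈ S, ∀ y ∈ S, ∀ x' ∈ S, ∀ y' ∈ S, x ≠ y → x' ≠ y' →
      ∃ τ : ℂ ≃+* ℂ, Fixes M τ ∧ τ x = x' ∧ τ y = y') ∨
    (S.card.Prime ∧ ∀ x ∈ S, ∀ y ∈ S, ∃ τ : ℂ ≃+* ℂ, Fixes M τ ∧ τ x = y)) ∧
  ∃ x ∈ S, ∃ y ∈ S, ∀ N : ℕ, 0 < N → x ^ N ≠ y ^ N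

/-- For every finite set `F` of indices and `j ∉ F` some automorphism of `ℂ` over `M` fixes all
elements of the sets `A i`, `i ∈ F`, but not all elements of `A j`. -/
def Independent (M : Subfield ℂ) {J : Type} (A : J → Finset ℂ) : Prop :=
  ∀ (F : Finset J) (j : J), j ∉ F →
    ∃ τ : ℂ ≃+* ℂ, Fixes M τ ∧ (∀ i ∈ F, ∀ x ∈ A i, τ x = x) ∧ ∃ x ∈ A j, τ x ≠ x

/-- `A` is the multiset of eigenvalues of the Frobenius of `F` on the first compactly supported
cohomology of the affine line with coefficients in the Artin-Schreier sheaf of `ψ (f x)`: for each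
finite extension `E` of `F` the exponential sum of `f` over `E` is minus the sum of the `[E : F]`-th
powers of the elements of `A`, and these are not zero. -/
def IsFrobAS {F : Type} [Field F] [Fintype F] (ψ : AddChar F ℂ) (f : F[X]) (A : Multiset ℂ) :
    Prop :=
  (0 : ℂ) ∉ A ∧ ∀ (E : Type) [Field E] [Fintype E] [Algebra F E],
    ∑ x : E, ψ (Algebra.trace F E (aeval x f)) = - (A.map (fun α => α ^ Module.finrank F E)).sum

/-- The same with the Kummer sheaf of `χ (f x)`. -/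
def IsFrobSE {F : Type} [Field F] [Fintype F] (χ : MulChar F ℂ) (f : F[X]) (A : Multiset ℂ) :
    Prop :=
  (0 : ℂ) ∉ A ∧ ∀ (E : Type) [Field E] [Fintype E] [Algebra F E],
    ∑ x : E, χ (Algebra.norm F (aeval x f)) = - (A.map (fun α => α ^ Module.finrank F E)).sum

/-- Up to powers, `z` is in the group generated by `p` and the elements of `B`. -/
def InGroup (p : ℕ) (B : Finset ℂ) (z : ℂ) : Prop :=
  ∃ (N : ℕ) (b : ℤ) (n : ℂ → ℤ), 0 < N ∧ z ^ N = (p : ℂ) ^ b * ∏ x ∈ B, x ^ n x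

variable {k : Type u} [Field k] {𝒱 : VarClass k} {ops : CycleOps 𝒱}
  {W : WeilCohomology.{u, v} ops} {p : ℕ}

/-- Up to powers, the eigenvalues of Frobenius on the cohomology of `X` are products of integral
powers of `p` and of the elements of the sets `A j`, `j ∈ F`. -/
def ProductsOf (Φ : FrobSystem W p) (σ : W.K →+* ℂ) {J : Type} (A : J → Finset ℂ) (F : Finset J)
    (X : 𝒱.Obj) : Prop :=
  ∀ μ : W.K, Module.End.HasEigenvalue (W.map (Φ.Fr X)).toLinearMap μ →
    ∃ (N : ℕ) (b : ℤ) (n : J → ℂ → ℤ), 0 < N ∧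
      (σ μ) ^ N = (p : ℂ) ^ b * ∏ j ∈ F, ∏ x ∈ A j, x ^ n j x

/-- Up to powers, the eigenvalues of Frobenius on the cohomology of `Z` are in the group generated
by `p` and the elements of `B`. -/
def EigenvaluesIn (Φ : FrobSystem W p) (σ : W.K →+* ℂ) (B : Finset ℂ)
    (Z : 𝒱.Obj) : Prop :=
  ∀ ν : W.K, Module.End.HasEigenvalue (W.map (Φ.Fr Z)).toLinearMap ν → InGroup p B (σ ν)

end Pool.Agent.L5helper29.ID
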