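import Pool.Agent.L5helper29.SE.Rel2

/-!
# Multiplicative relations between the elements of several blocks and of an arbitrary stable set
-/

set_option autoImplicit false
set_option linter.all false

namespace Pool.Agent.L5helper29.ID

open Finset Pool.Agent.L5helper29.AS Pool.Agent.L5helper29.SE

/-- a block -/
structure BlockG (p : ℕ) (G : Subgroup (RingAut ℂ)) (S : Finset ℂ) : Prop where
  ne_zero : ∀ x ∈ S, x ≠ 0
  norm : ∀ x ∈ S, ∀ y ∈ S, ‖x‖ = ‖y‖
  stable : ∀ σ ∈ G, ∀ x ∈ S, σ x ∈ S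
  large : GalOK2 G S
  generic : ∃ x ∈ S, ∃ y ∈ S, ∀ N : ℕ, 0 < N → x ^ N ≠ y ^ N
  det : ∃ N : ℕ, 0 < N ∧ ∃ k : ℤ, (∏ x ∈ S, x) ^ N = (p : ℂ) ^ k

section

variable {J : Type*} [Fintype J] [DecidableEq J] {p : ℕ} (A : J → Finset ℂ) (B : Finset ℂ)
  (G : Subgroup (RingAut ℂ))

/-- the sets -/
def opt : Option J → Finset ℂ
  | none => B
  | some j => A j

/-- **The multiplicative relations.** -/
theorem rel_opt (hp : 1 < p) (hA : ∀ j, BlockG p G (A j)) (hB0 : ∀ b ∈ B, b ≠ 0)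
    (hBG : ∀ σ ∈ G, ∀ b ∈ B, σ b ∈ B)
    (h2 : ∀ j, ∃ σ ∈ G, (∀ i, i ≠ j → ∀ x ∈ A i, σ x = x) ∧ (∀ b ∈ B, σ b = b) ∧
      ∃ x ∈ A j, σ x ≠ x)
    (m : ∀ o, opt A B o → ℤ) (N : ℕ) (hN : 0 < N) (k : ℤ)
    (hm : mono (opt A B) m ^ N = (p : ℂ) ^ k)
    (j : J) (x y : A j) : m (some j) x = m (some j) y := by
  classical
  have hq0 : (0 : ℝ) < p := by exact_mod_cast (by omega : 0 < p)
  have hqC : (p : ℂ) ≠ 0 := by exact_mod_cast (by omega : p ≠ 0)
  have h0 : ∀ o, ∀ x ∈ opt A B o, x ≠ 0 := by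
    rintro (_ | j) x hx
    · exact hB0 x hx
    · exact (hA j).ne_zero x hx
  have hG : ∀ σ ∈ G, ∀ o, ∀ x ∈ opt A B o, σ x ∈ opt A B o := by
    rintro σ hσ (_ | j) x hx
    · exact hBG σ hσ x hx
    · exact (hA j).stable σ hσ x hx
  letI act : ∀ o, MulAction G (opt A B o) := fun o =>
    { smul := fun σ x => ⟨(σ : RingAut ℂ) (x : ℂ), hG σ σ.2 o x x.2⟩
      one_smul := fun x => Subtype.ext rfl
      mul_smul := fun σ τ x => Subtype.ext rfl }
  have hsm : ∀ (o : Option J) (σ : G) (x : opt A B o),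
      ((σ • x : opt A B o) : ℂ) = (σ : RingAut ℂ) (x : ℂ) :=
    fun j σ x => rfl
  set R := RelSp (opt A B) h0 (p : ℂ) hqC with hR
  -- stability
  have hRG : ∀ (g : G), ∀ m ∈ R, (fun o (x : opt A B o) => m o (g⁻¹ • x)) ∈ R := by
    rintro g m ⟨M, hM, m', hm', l, hl⟩
    refine ⟨M, hM, fun j x => m' j (g⁻¹ • x), fun j x => hm' j _, l, ?_⟩
    have e1 := congrArg (g : RingAut ℂ) hl
    rw [map_zpow₀, map_natCast] at e1
    rw [← e1]
    unfold mono
    rw [map_prod]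
    refine prod_congr rfl fun i _ => ?_
    rw [map_prod]
    refine (Fintype.prod_equiv (MulAction.toPerm g) _ _ ?_).symm
    intro x
    rw [map_zpow₀]
    simp only [MulAction.toPerm_apply, inv_smul_smul]
    rfl
  -- irreducibility
  have hirr : Irr G (opt A B (some j)) := by
    rcases (hA j).large with h | ⟨h, h'⟩
    · apply irr_of_two
      intro x y x' y' hxy hxy'
      obtain ⟨σ, hσ, e1, e2⟩ := h x x.2 y y.2 x' x'.2 y' y'.2
        (fun e => hxy (Subtype.ext e)) (fun e => hxy' (Subtype.ext e))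
      exact ⟨⟨σ, hσ⟩, Subtype.ext e1, Subtype.ext e2⟩
    · apply irr_of_prime
      · rw [Fintype.card_coe]
        exact h
      · intro x y
        obtain ⟨σ, hσ, e1⟩ := h' x x.2 y y.2
        exact ⟨⟨σ, hσ⟩, Subtype.ext e1⟩
  have h3 : ¬ ∀ x y : opt A B (some j),
      (Pi.single (some j) ((Pi.single x (1 : ℚ) : opt A B (some j) → ℚ) - Pi.single y 1) :
      ∀ o, opt A B o → ℚ) ∈ R := by
    intro h
    obtain ⟨x, hx, y, hy, hxy⟩ := (hA j).generic
    have hne : (⟨x, hx⟩ : opt A B (some j)) ≠ ⟨y, hy⟩ := by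
      intro h
      have h4 : x = y := congrArg Subtype.val h
      exact hxy 1 one_pos (by rw [h4])
    obtain ⟨M, hM, m', hm', l, hl⟩ := h ⟨x, hx⟩ ⟨y, hy⟩
    have e1 : m' (some j) ⟨x, hx⟩ = M := by
      have e2 := hm' (some j) ⟨x, hx⟩
      rw [Pi.single_eq_same, Pi.sub_apply, Pi.single_eq_same, Pi.single_eq_of_ne hne, sub_zero,
        mul_one] at e2
      exact_mod_cast e2.symm
    have e2 : m' (some j) ⟨y, hy⟩ = -M := by
      have e2 := hm' (some j) ⟨y, hy⟩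
      rw [Pi.single_eq_same, Pi.sub_apply, Pi.single_eq_same, Pi.single_eq_of_ne hne.symm,
        zero_sub, mul_neg, mul_one] at e2
      exact_mod_cast e2.symm
    have e3 : mono (opt A B) m' = x ^ (M : ℤ) * y ^ (-(M : ℤ)) := by
      unfold mono
      rw [prod_eq_single (some j)]
      · rw [← prod_subset (subset_univ ({⟨x, hx⟩, ⟨y, hy⟩} : Finset (opt A B (some j)))),
          prod_pair hne, e1, e2]
        intro z _ hz
        rw [mem_insert, mem_singleton, not_or] at hz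
        have e4 := hm' (some j) z
        rw [Pi.single_eq_same, Pi.sub_apply, Pi.single_eq_of_ne hz.1, Pi.single_eq_of_ne hz.2,
          sub_zero, mul_zero] at e4
        have e5 : m' (some j) z = 0 := by exact_mod_cast e4.symm
        rw [e5, zpow_zero]
      · intro i _ hi
        apply prod_eq_one
        intro z _
        have e4 := hm' i z
        rw [Pi.single_eq_of_ne hi, Pi.zero_apply, mul_zero] at e4
        have e5 : m' i z = 0 := by exact_mod_cast e4.symm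
        rw [e5, zpow_zero]
      · intro h
        exact absurd (mem_univ _) h
    rw [e3] at hl
    have hs0 : (0 : ℝ) < ‖y‖ := norm_pos_iff.2 ((hA j).ne_zero y hy)
    have e4 : l = 0 := by
      have e5 := congrArg norm hl
      rw [norm_mul, norm_zpow, norm_zpow, norm_zpow, (hA j).norm x hx y hy,
        ← zpow_add₀ hs0.ne', add_neg_cancel, zpow_zero, Complex.norm_natCast] at e5
      have e6 : (p : ℝ) ^ (0 : ℤ) = (p : ℝ) ^ l := by rw [zpow_zero, e5]
      exact (zpow_right_injective₀ hq0 (by exact_mod_cast (by omega : p ≠ 1)) e6).symm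
    rw [e4, zpow_zero, zpow_neg, mul_inv_eq_one₀ (zpow_ne_zero _ ((hA j).ne_zero y hy)),
      zpow_natCast, zpow_natCast] at hl
    exact hxy M hM hl
  have h2' : ∃ g : G, (∀ i, i ≠ some j → ∀ x : opt A B i, g • x = x) ∧
      ∃ x : opt A B (some j), g • x ≠ x := by
    obtain ⟨σ, hσ, e1, e1', x, hx, e2⟩ := h2 j
    refine ⟨⟨σ, hσ⟩, ?_, ⟨x, hx⟩, ?_⟩
    · rintro (_ | i) hi x
      · exact Subtype.ext (e1' x x.2)
      · exact Subtype.ext (e1 i (fun h => hi (by rw [h])) x x.2)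
    · intro h
      exact e2 (congrArg Subtype.val h)
  have hmR : (fun o (x : opt A B o) => (m o x : ℚ)) ∈ R := by
    refine ⟨N, hN, fun j x => (N : ℤ) * m j x, ?_, k, ?_⟩
    · intro j x
      push_cast
      ring
    · rw [mono_smul h0, zpow_natCast, hm]
  have := rel_const (G := G) (fun o => opt A B o) R hRG (some j) hirr h2' h3 _ hmR x y
  exact_mod_cast this

/-- **The part of the relation in the blocks is trivial.** -/
theorem rel_blocks (hp : 1 < p) (hA : ∀ j, BlockG p G (A j)) (hB0 : ∀ b ∈ B, b ≠ 0)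
    (hBG : ∀ σ ∈ G, ∀ b ∈ B, σ b ∈ B)
    (h2 : ∀ j, ∃ σ ∈ G, (∀ i, i ≠ j → ∀ x ∈ A i, σ x = x) ∧ (∀ b ∈ B, σ b = b) ∧
      ∃ x ∈ A j, σ x ≠ x)
    (m : J → ℂ → ℤ) (n : ℂ → ℤ) (k : ℤ)
    (hm : (∏ j, ∏ x ∈ A j, x ^ m j x) * ∏ b ∈ B, b ^ n b = (p : ℂ) ^ k) :
    ∃ N : ℕ, 0 < N ∧ ∃ l : ℤ, (∏ j, ∏ x ∈ A j, x ^ m j x) ^ N = (p : ℂ) ^ l := by
  classical
  have key : ∀ j, ∀ x ∈ A j, ∀ y ∈ A j, m j x = m j y := by
    intro j x hx y hy
    have h1 := rel_opt A B G hp hA hB0 hBG h2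
      (fun o => match o with
        | none => fun x => n x
        | some j => fun x => m j x) 1 one_pos k (by
        rw [pow_one, ← hm]
        unfold mono
        rw [Fintype.prod_option, mul_comm]
        congr 1
        · refine prod_congr rfl fun i _ => ?_
          exact prod_coe_sort (A i) (fun x => x ^ m i x)
        · exact prod_coe_sort B (fun x => x ^ n x)) j ⟨x, hx⟩ ⟨y, hy⟩
    exact h1
  have h3 : ∀ j, ∃ N : ℕ, 0 < N ∧ ∃ l : ℤ, (∏ x ∈ A j, x ^ m j x) ^ N = (p : ℂ) ^ l := by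
    intro j
    obtain ⟨x0, hx0, -⟩ := (hA j).generic
    obtain ⟨N, hN, l, hl⟩ := (hA j).det
    refine ⟨N, hN, l * m j x0, ?_⟩
    rw [prod_congr rfl fun x hx => by rw [key j x hx x0 hx0], prod_zpow, ← zpow_natCast,
      ← zpow_mul, mul_comm (m j x0), zpow_mul, zpow_natCast, hl, ← zpow_mul]
  choose N hN l hl using h3
  refine ⟨∏ j, N j, prod_pos fun j _ => hN j, ∑ j, l j * ∏ i ∈ univ.erase j, (N i : ℤ), ?_⟩
  have hqC : (p : ℂ) ≠ 0 := by exact_mod_cast (by omega : p ≠ 0)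
  rw [← prod_pow]
  have h4 : ∀ j, (∏ x ∈ A j, x ^ m j x) ^ (∏ i, N i) =
      (p : ℂ) ^ (l j * ∏ i ∈ univ.erase j, (N i : ℤ)) := by
    intro j
    rw [← mul_prod_erase univ N (mem_univ j), pow_mul, hl, zpow_mul, ← zpow_natCast]
    push_cast
    rfl
  rw [prod_congr rfl fun j _ => h4 j]
  have h5 : ∀ s : Finset J, ∏ j ∈ s, (p : ℂ) ^ (l j * ∏ i ∈ univ.erase j, (N i : ℤ)) =
      (p : ℂ) ^ (∑ j ∈ s, l j * ∏ i ∈ univ.erase j, (N i : ℤ)) := by
    intro s
    induction s using Finset.induction_on with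
    | empty => simp
    | insert a s ha ih => rw [prod_insert ha, sum_insert ha, ih, zpow_add₀ hqC]
  exact h5 univ

end

end Pool.Agent.L5helper29.ID
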