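import Pool.Agent.N179.TL.Lev
import Pool.Agent.TH121.KT.GeoFinal
import Pool.Agent.TH121.KT.GeoDefs
import Pool.Agent.L5helper29.ID.Rel
import Pool.Agent.L5helper29.ID.Def

/-!
# Products with varieties with independent Frobenius eigenvalues
-/

set_option autoImplicit false
set_option linter.all false

open CategoryTheory AlgebraicGeometry
open scoped TensorProduct

universe u v

namespace Pool.Agent.L5helper29.ID

open Pool.Agent.H914 Pool.Agent.H914.VarClass Pool.Agent.H914.VarClass.Obj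
  Pool.Agent.H914.WeilCohomology Pool.Agent.H281R3.HT Pool.Agent.W552 Pool.Agent.W534
  Pool.Agent.W458.RK Pool.Agent.W458.MF Pool.Agent.TH132.A Pool.Agent.TH121.KT

lemma inGroup_one (p : ℕ) (B : Finset ℂ) : InGroup p B 1 :=
  ⟨1, 0, fun _ => 0, one_pos, by simp⟩

lemma inGroup_pow {p : ℕ} {B : Finset ℂ} {z : ℂ} (n : ℕ) (h : InGroup p B z) :
    InGroup p B (z ^ n) := by
  obtain ⟨N, b, m, hN, h⟩ := h
  refine ⟨N, b * n, fun x => m x * n, hN, ?_⟩
  rw [← pow_mul, mul_comm n N, pow_mul, h, mul_pow, ← Finset.prod_pow, zpow_mul, zpow_natCast]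
  congr 1
  exact Finset.prod_congr rfl fun x _ => by rw [zpow_mul, zpow_natCast]

variable {k : Type u} [Field k] {𝒱 : VarClass k} {ops : CycleOps 𝒱}
  {W : WeilCohomology.{u, v} ops} {X U : 𝒱.Obj} {p : ℕ} {Φ : FrobSystem W p}

/-- **The Tate conjecture for the products of `X` with all independent varieties.** -/
theorem tateTimesP_main [IsAlgClosed W.K] (hp : 1 < p) (σ : W.K →+* ℂ)
    {J : Type} [DecidableEq J] {A : J → Finset ℂ} {F : Finset J} {B : Finset ℂ}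
    {G : Subgroup (RingAut ℂ)}
    (hA : ∀ j ∈ F, BlockG p G (A j)) (hBG : ∀ τ ∈ G, ∀ b ∈ B, τ b ∈ B)
    (h2 : ∀ j ∈ F, ∃ τ ∈ G, (∀ i ∈ F, i ≠ j → ∀ x ∈ A i, τ x = x) ∧ (∀ b ∈ B, τ b = b) ∧
      ∃ x ∈ A j, τ x ≠ x)
    (hX : ProductsOf Φ σ A F X) (hTX : SupersingularAlgebraic Φ X) :
    TateTimesP Φ (fun ν => InGroup p B (σ ν)) X := by
  classical
  intro s hs V _ _ _ T hT c a x hx
  have hpC : (p : ℂ) ≠ 0 := by exact_mod_cast (by omega : p ≠ 0)
  have hp0 : (p : W.K) ≠ 0 := by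
    intro h
    apply hpC
    rw [← map_natCast σ, h, map_zero]
  have hQ : (card Φ X s : W.K) ≠ 0 := card_ne Φ s
  refine (tensor_killed (F := frob Φ X s) (G := T) (card Φ X s : W.K) hQ c (fun i => cycSub W X i)
    (fun i y hy => cyc_killed Φ hy) ?_ a x).1 hx
  intro μ ν N hN hν hrel
  refine le_trans ?_ algSpan_le_cyc
  by_cases hμ : Module.End.HasEigenvalue (frob Φ X s) μ
  swap
  · have h1 : Module.End.maxGenEigenspace (frob Φ X s) μ = ⊥ := by
      by_contra hne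
      apply hμ
      have h2 : (frob Φ X s).HasUnifEigenvalue μ ⊤ := hne
      exact h2.lt one_pos
    rw [h1]
    exact bot_le
  have hμ' := hμ
  rw [frob_pow_eq', Module.End.hasEigenvalue_iff_mem_spectrum, spectrum.map_pow_of_pos _ hs] at hμ'
  obtain ⟨μ₀, hμ₀, hμs⟩ := hμ'
  have hμs : μ₀ ^ s = μ := hμs
  obtain ⟨N₀, b, n, hN₀, hprod⟩ := hX μ₀ (Module.End.hasEigenvalue_iff_mem_spectrum.2 hμ₀)
  obtain ⟨N₁, b₁, n₁, hN₁, hprod₁⟩ := hT ν hν
  have hν0 : ν ≠ 0 := by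
    rintro rfl
    rw [mul_zero, zero_pow hN.ne'] at hrel
    exact pow_ne_zero _ (zpow_ne_zero _ hQ) hrel.symm
  have hσν : σ ν ≠ 0 := fun h => hν0 (by rwa [map_eq_zero] at h)
  -- the product over `B` without zero
  have hB' : ∏ x ∈ B, x ^ n₁ x = ∏ x ∈ B.erase 0, x ^ n₁ x := by
    by_cases h0 : (0 : ℂ) ∈ B
    · rw [← Finset.mul_prod_erase B _ h0]
      have h1 : ∏ x ∈ B, x ^ n₁ x ≠ 0 := by
        intro h
        rw [h, mul_zero] at hprod₁
        exact pow_ne_zero _ hσν hprod₁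
      rw [Finset.prod_ne_zero_iff] at h1
      have h3 := h1 0 h0
      have h4 : n₁ 0 = 0 := by
        by_contra hne
        exact h3 (zero_zpow _ hne)
      rw [h4, zpow_zero, one_mul]
    · rw [Finset.erase_eq_of_notMem h0]
  -- the relation
  have e1 : (σ μ₀) ^ (s * N * N₀ * N₁) * (σ ν) ^ (N * N₀ * N₁) =
      ((p : ℂ) ^ (((Φ.e X * s : ℕ) : ℤ) * c)) ^ (N * N₀ * N₁) := by
    have h1 := congrArg σ hrel
    rw [map_pow, map_mul, ← hμs, map_pow, map_pow, map_zpow₀, map_natCast, W534.card] at h1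
    push_cast at h1
    have h3 := congrArg (fun z : ℂ => z ^ (N₀ * N₁)) h1
    beta_reduce at h3
    rw [← pow_mul, ← pow_mul, mul_pow, ← pow_mul] at h3
    rw [zpow_mul, zpow_natCast]
    push_cast
    rw [show s * N * N₀ * N₁ = s * (N * (N₀ * N₁)) by ring,
      show N * N₀ * N₁ = N * (N₀ * N₁) by ring]
    exact h3
  have e2 : (σ μ₀) ^ (s * N * N₀ * N₁) = ((p : ℂ) ^ b) ^ (s * N * N₁) *
      ∏ j ∈ F, ∏ x ∈ A j, x ^ (n j x * (s * N * N₁ : ℕ)) := by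
    rw [show s * N * N₀ * N₁ = N₀ * (s * N * N₁) by ring, pow_mul, hprod, mul_pow,
      ← Finset.prod_pow]
    congr 1
    refine Finset.prod_congr rfl fun j _ => ?_
    rw [← Finset.prod_pow]
    exact Finset.prod_congr rfl fun x _ => by rw [zpow_mul, zpow_natCast]
  have e3 : (σ ν) ^ (N * N₀ * N₁) = ((p : ℂ) ^ b₁) ^ (N * N₀) *
      ∏ x ∈ B.erase 0, x ^ (n₁ x * (N * N₀ : ℕ)) := by
    rw [show N * N₀ * N₁ = N₁ * (N * N₀) by ring, pow_mul, hprod₁, hB', mul_pow,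
      ← Finset.prod_pow]
    congr 1
    exact Finset.prod_congr rfl fun x _ => by rw [zpow_mul, zpow_natCast]
  have hFprod : ∀ m : J → ℂ → ℤ, ∏ j ∈ F, ∏ x ∈ A j, x ^ m j x =
      ∏ j : F, ∏ x ∈ A j, x ^ m j x := fun m => (Finset.prod_coe_sort F _).symm
  obtain ⟨M, hM, l, hl⟩ := rel_blocks (J := F) (p := p) (fun j => A j) (B.erase 0) G hp
    (fun j => hA j j.2) (fun b hb => Finset.ne_of_mem_erase hb)
    (fun τ hτ b hb => by
      rw [Finset.mem_erase] at hb ⊢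
      exact ⟨(map_ne_zero_iff τ τ.injective).2 hb.1, hBG τ hτ b hb.2⟩)
    (fun j => by
      obtain ⟨τ, hτ, f1, f2, f3⟩ := h2 j j.2
      exact ⟨τ, hτ, fun i hi => f1 i i.2 (fun h => hi (Subtype.ext h)),
        fun b hb => f2 b (Finset.mem_of_mem_erase hb), f3⟩)
    (fun j x => n j x * (s * N * N₁ : ℕ)) (fun x => n₁ x * (N * N₀ : ℕ))
    (((Φ.e X * s : ℕ) : ℤ) * c * (N * N₀ * N₁ : ℕ) - b * (s * N * N₁ : ℕ) - b₁ * (N * N₀ : ℕ)) (by
      rw [← hFprod (fun j x => n j x * (s * N * N₁ : ℕ)), zpow_sub₀ hpC, zpow_sub₀ hpC,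
        zpow_mul _ _ ((N * N₀ * N₁ : ℕ) : ℤ), zpow_natCast, ← e1, e2, e3, zpow_mul _ b,
        zpow_natCast, zpow_mul _ b₁, zpow_natCast]
      have h5 : ((p : ℂ) ^ b) ^ (s * N * N₁) ≠ 0 := pow_ne_zero _ (zpow_ne_zero _ hpC)
      have h6 : ((p : ℂ) ^ b₁) ^ (N * N₀) ≠ 0 := pow_ne_zero _ (zpow_ne_zero _ hpC)
      field_simp)
  rw [← hFprod (fun j x => n j x * (s * N * N₁ : ℕ))] at hl
  refine hTX s hs μ (N * N₀ * N₁ * M) (b * (s * N * N₁ * M : ℕ) + l) (by positivity) ?_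
  apply σ.injective
  rw [map_pow, map_zpow₀, map_natCast, ← hμs, map_pow, ← pow_mul,
    show s * (N * N₀ * N₁ * M) = (s * N * N₀ * N₁) * M by ring, pow_mul, e2, mul_pow, hl,
    zpow_add₀ hpC, zpow_mul _ b, zpow_natCast]
  congr 1
  rw [← pow_mul]

end Pool.Agent.L5helper29.ID
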