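import Pool.Agent.L5helper29.ID.Geo
import Pool.Agent.L5helper29.ID.Exc

/-!
# Products of arbitrary varieties with members of independent families
-/

set_option autoImplicit false
set_option linter.all false

open CategoryTheory AlgebraicGeometry

universe u v

namespace Pool.Agent.L5helper29.ID

open Pool.Agent.H914 Pool.Agent.H914.VarClass Pool.Agent.H914.VarClass.Obj
  Pool.Agent.H914.WeilCohomology Pool.Agent.H281R3.HT Pool.Agent.W552 Pool.Agent.W534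
  Pool.Agent.W458.RK Pool.Agent.W458.MF Pool.Agent.TH132.A Pool.Agent.TH121.KT

/-- the automorphisms of `ℂ` over `M` -/
def Gfix (M : Subfield ℂ) : Subgroup (RingAut ℂ) where
  carrier := {τ | ∀ x ∈ M, τ x = x}
  one_mem' := fun x _ => rfl
  mul_mem' := by
    intro a b ha hb x hx
    change a (b x) = x
    rw [hb x hx, ha x hx]
  inv_mem' := by
    intro a ha x hx
    change a.symm x = x
    rw [RingEquiv.symm_apply_eq]
    exact (ha x hx).symm

theorem exc_main {J : Type} (G : Subgroup (RingAut ℂ)) (A : J → Finset ℂ) (B : Finset ℂ)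
    (hBG : ∀ τ ∈ G, ∀ b ∈ B, τ b ∈ B)
    (hI : ∀ (F : Finset J) (j : J), j ∉ F →
      ∃ τ ∈ G, (∀ i ∈ F, ∀ x ∈ A i, τ x = x) ∧ ∃ x ∈ A j, τ x ≠ x) :
    ∃ E : Set J, E.Finite ∧ 2 ^ E.ncard ≤ B.card.factorial ∧
      ∀ F : Finset J, Disjoint (F : Set J) E → ∀ j ∈ F,
        ∃ τ ∈ G, (∀ i ∈ F, i ≠ j → ∀ x ∈ A i, τ x = x) ∧ (∀ b ∈ B, τ b = b) ∧
          ∃ x ∈ A j, τ x ≠ x := by
  classical
  letI act : MulAction G B :=
    { smul := fun τ x => ⟨(τ : RingAut ℂ) (x : ℂ), hBG τ τ.2 x x.2⟩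
      one_smul := fun x => Subtype.ext rfl
      mul_smul := fun τ τ' x => Subtype.ext rfl }
  let N : J → Subgroup G := fun j =>
    { carrier := {τ | ∀ x ∈ A j, (τ : RingAut ℂ) x = x}
      one_mem' := fun x _ => rfl
      mul_mem' := by
        intro a b ha hb x hx
        change (a : RingAut ℂ) ((b : RingAut ℂ) x) = x
        rw [hb x hx, ha x hx]
      inv_mem' := by
        intro a ha x hx
        change (a : RingAut ℂ).symm x = x
        rw [RingEquiv.symm_apply_eq]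
        exact (ha x hx).symm }
  have hN : ∀ j (τ : G), τ ∈ N j ↔ ∀ x ∈ A j, (τ : RingAut ℂ) x = x := fun j τ => Iff.rfl
  have hNinf : ∀ (F : Finset J) (τ : G), (τ ∈ ⨅ i ∈ F, N i) ↔ ∀ i ∈ F, ∀ x ∈ A i,
      (τ : RingAut ℂ) x = x := by
    intro F τ
    simp only [Subgroup.mem_iInf, hN]
  have hker : ∀ τ : G, τ ∈ (MulAction.toPermHom G B).ker ↔ ∀ b ∈ B, (τ : RingAut ℂ) b = b := by
    intro τ
    rw [MonoidHom.mem_ker]
    constructor
    · intro h b hb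
      have h1 := congrArg (fun f : Equiv.Perm B => ((f ⟨b, hb⟩ : B) : ℂ)) h
      exact h1
    · intro h
      ext b
      exact h b b.2
  obtain ⟨h1, h2⟩ := index_stab (Γ := G) (X := B)
  rw [Fintype.card_coe] at h2
  obtain ⟨E, hE, hE2, hE3⟩ := exc_all N (MulAction.toPermHom G B).ker h1 (by
    intro F j hj hle
    obtain ⟨τ, hτ, f1, x, hx, f2⟩ := hI F j hj
    have h3 : (⟨τ, hτ⟩ : G) ∈ ⨅ i ∈ F, N i := (hNinf F _).2 f1
    exact f2 ((hN j _).1 (hle h3) x hx))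
  refine ⟨E, hE, hE2.trans h2, ?_⟩
  intro F hF j hj
  have h3 := hE3 F hF j hj
  rw [SetLike.not_le_iff_exists] at h3
  obtain ⟨τ, hτ, hτ'⟩ := h3
  rw [Subgroup.mem_inf] at hτ
  have h4 := (hker τ).1 hτ.1
  have h5 := (hNinf _ τ).1 hτ.2
  rw [hN] at hτ'
  push Not at hτ'
  exact ⟨τ, τ.2, fun i hi hij => h5 i (Finset.mem_erase.2 ⟨hij, hi⟩), h4, hτ'⟩

variable {k : Type u} [Field k] {𝒱 : VarClass k} {ops : CycleOps 𝒱}
  {W : WeilCohomology.{u, v} ops} {X U : 𝒱.Obj} {p : ℕ} {Φ : FrobSystem W p}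

/-- **The Tate conjecture for the products with an arbitrary variety.** -/
theorem final_tate [IsAlgClosed W.K] (hp : 1 < p) (σ : W.K →+* ℂ) {J : Type}
    {A : J → Finset ℂ} {B : Finset ℂ} {G : Subgroup (RingAut ℂ)}
    (hA : ∀ j, BlockG p G (A j)) (hBG : ∀ τ ∈ G, ∀ b ∈ B, τ b ∈ B) (E : Set J)
    (hE : ∀ F : Finset J, Disjoint (F : Set J) E → ∀ j ∈ F,
        ∃ τ ∈ G, (∀ i ∈ F, i ≠ j → ∀ x ∈ A i, τ x = x) ∧ (∀ b ∈ B, τ b = b) ∧
          ∃ x ∈ A j, τ x ≠ x) (F : Finset J) (hF : Disjoint (F : Set J) E)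
    (hX : ProductsOf Φ σ A F X) (hTX : SupersingularAlgebraic Φ X) :
    (∀ c, SemisimpleTateIn Φ X c) ∧
    ∀ U : 𝒱.Obj, (∀ ν : W.K, Module.End.HasEigenvalue (W.map (Φ.Fr U)).toLinearMap ν →
        InGroup p B (σ ν)) → ∀ c,
      (TateIn Φ (X.prod U) c ↔
        ∀ i ≤ c, (∃ x, X.IsCyc i x ∧ ¬ HomEq W x 0) → TateIn Φ U (c - i)) ∧
      (SemisimpleTateIn Φ (X.prod U) c ↔
        ∀ i ≤ c, (∃ x, X.IsCyc i x ∧ ¬ HomEq W x 0) → SemisimpleTateIn Φ U (c - i)) := by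
  classical
  have hT := tateTimesP_main hp σ (fun j _ => hA j) hBG (hE F hF) hX hTX
  exact Pool.Agent.N179.TL.tateIn_prod_lev (PP := fun _ ν => InGroup p B (σ ν)) hp
    (fun s hs V _ _ _ T hT' => hT s hs V T hT')
    (fun m _ => by rw [map_one]; exact inGroup_one p B)
    (fun m ν n hn h => by rw [map_pow]; exact inGroup_pow n h)

/-- **The conjecture A for the products with an arbitrary variety.** -/
theorem final_lef [IsAlgClosed W.K] (hp : 1 < p) (σ : W.K →+* ℂ) {J : Type}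
    {A : J → Finset ℂ} {B : Finset ℂ} {G : Subgroup (RingAut ℂ)}
    (hA : ∀ j, BlockG p G (A j)) (hBG : ∀ τ ∈ G, ∀ b ∈ B, τ b ∈ B) (E : Set J)
    (hE : ∀ F : Finset J, Disjoint (F : Set J) E → ∀ j ∈ F,
        ∃ τ ∈ G, (∀ i ∈ F, i ≠ j → ∀ x ∈ A i, τ x = x) ∧ (∀ b ∈ B, τ b = b) ∧
          ∃ x ∈ A j, τ x ≠ x) (F : Finset J) (hF : Disjoint (F : Set J) E)
    (hX : ProductsOf Φ σ A F X) (hTX : SupersingularAlgebraic Φ X)
    (hU : ∀ ν : W.K, Module.End.HasEigenvalue (W.map (Φ.Fr U)).toLinearMap ν →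
      InGroup p B (σ ν)) :
    CyclesSplit W X U ∧
    (∀ C, (X.prod U).IsCyc 1 C → ∃ D B, IsSumOf W C D B) ∧
    (¬ HomEq W (X.prod U).V.fundCycle 0 → ∀ C D B, (X.prod U).IsCyc 1 C → IsSumOf W C D B →
      HardLefschetz W (X.prod U) C → HardLefschetz W X D ∧ HardLefschetz W U B ∧
        (LefschetzA W (X.prod U) C ↔ LefschetzA W U B)) := by
  classical
  have hT := tateTimesP_main hp σ (fun j _ => hA j) hBG (hE F hF) hX hTX
  have h1 : InGroup p B (σ 1) := by rw [map_one]; exact inGroup_one p B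
  exact lefschetz_of_tens (homEqNum_of_tateTimesP hp hT h1) fun z hz =>
    tens_of_tateTimesP hp hT h1 (fun ν n hn h => by
      simp only [map_pow]
      exact inGroup_pow n h) hU hz

end Pool.Agent.L5helper29.ID
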