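import Pool.Agent.L5helper29.ID.Main
import Pool.Agent.L5helper29.AS.Final
import Pool.Agent.L5helper29.SE.Main3

/-!
# Independent families of sets of Weil numbers of unitary type: definitions and examples
-/

set_option autoImplicit false
set_option linter.all false

open CategoryTheory AlgebraicGeometry

universe u v

namespace Pool.Agent.L5helper29.ID

open Pool.Agent.H914 Pool.Agent.H914.VarClass Pool.Agent.H914.VarClass.Obj
  Pool.Agent.H914.WeilCohomology Pool.Agent.H281R3.HT Pool.Agent.W552 Pool.Agent.W534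
  Pool.Agent.W458.RK Pool.Agent.W458.MF Pool.Agent.TH132.A Pool.Agent.TH121.KT

lemma blockG {p : ℕ} {M : Subfield ℂ} {S : Finset ℂ} (h : Block p M S) (h' : Large M S) :
    BlockG p (Gfix M) S where
  ne_zero := h.ne_zero
  norm := h.norm
  stable := fun τ hτ x hx => h.stable τ hτ x hx
  large := by
    rcases h'.1 with h1 | ⟨h1, h2⟩
    · left
      intro x hx y hy x' hx' y' hy' hxy hxy'
      obtain ⟨τ, e1, e2, e3⟩ := h1 x hx y hy x' hx' y' hy' hxy hxy'
      exact ⟨τ, e1, e2, e3⟩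
    · right
      refine ⟨h1, fun x hx y hy => ?_⟩
      obtain ⟨τ, e1, e2⟩ := h2 x hx y hy
      exact ⟨τ, e1, e2⟩
  generic := h'.2
  det := h.det

/-- the exceptional indices -/
theorem exists_exc {M : Subfield ℂ} {J : Type} {A : J → Finset ℂ} (hI : Independent M A)
    {B : Finset ℂ} (hB : Stable M B) : ∃ E : Set J, E.Finite ∧
      2 ^ E.ncard ≤ B.card.factorial ∧
      ∀ F : Finset J, Disjoint (F : Set J) E → ∀ j ∈ F,
        ∃ τ ∈ Gfix M, (∀ i ∈ F, i ≠ j → ∀ x ∈ A i, τ x = x) ∧ (∀ b ∈ B, τ b = b) ∧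
          ∃ x ∈ A j, τ x ≠ x := by
  refine exc_main (Gfix M) A B (fun τ hτ b hb => hB τ hτ b hb) ?_
  intro F j hj
  obtain ⟨τ, e1, e2, e3⟩ := hI F j hj
  exact ⟨τ, e1, e2, e3⟩

section examples

open Polynomial

lemma prod_toFinset' {S : Multiset ℂ} (h : S.Nodup) : ∏ x ∈ S.toFinset, x = S.prod :=
  Pool.Agent.L5helper29.SE.prod_toFinset h

/-- Artin-Schreier curves -/
theorem block_as {F : Type} [Field F] [Fintype F] {ψ : AddChar F ℂ} {f : F[X]} {A : Multiset ℂ}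
    {M : Subfield ℂ} (hψ : ψ ≠ 1) (hf : 2 ≤ f.natDegree) (hfF : (f.natDegree : F) ≠ 0)
    (hA : IsFrobAS ψ f A) (hnd : A.Nodup)
    (hM : ∀ z : ℂ, z ^ ringChar F = 1 → z ∈ M) : Block (ringChar F) M A.toFinset := by
  classical
  change Pool.Agent.L5helper29.AS.IsFrob ψ f A at hA
  have hψ' : ψ.IsPrimitive := AddChar.IsPrimitive.of_ne_one hψ
  obtain ⟨n, hn⟩ : ∃ n, f.natDegree = n + 1 := ⟨f.natDegree - 1, by omega⟩
  obtain ⟨m, -, hm⟩ := FiniteField.card F (ringChar F)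
  have hd : ((n + 1 : ℕ) : F) ≠ 0 := by rw [← hn]; exact hfF
  obtain ⟨-, h2, -⟩ := Pool.Agent.L5helper29.AS.frob_main hψ' (by omega) hn hd hA
  refine ⟨?_, ?_, ?_, ?_⟩
  · intro x hx h0
    rw [Multiset.mem_toFinset, h0] at hx
    exact hA.1 hx
  · intro x hx y hy
    rw [Multiset.mem_toFinset] at hx hy
    rw [h2 x hx, h2 y hy]
  · intro τ hτ x hx
    rw [Multiset.mem_toFinset] at hx ⊢
    have h1 := Pool.Agent.L5helper29.AS.frob_map hψ' (by omega) hfF hA τ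
      (fun z hz => hτ z (hM z hz))
    rw [← h1]
    exact Multiset.mem_map_of_mem _ hx
  · obtain ⟨N, hN, h1, -⟩ := Pool.Agent.L5helper29.AS.frob_pow hψ' (by omega) hn hd hA
    refine ⟨2 * N, by omega, ((m : ℕ) * (n * N) : ℕ), ?_⟩
    rw [prod_toFinset' hnd, h1, hm, zpow_natCast]
    push_cast
    rw [← pow_mul]

/-- superelliptic curves -/
theorem block_se {F : Type} [Field F] [Fintype F] {ℓ : ℕ} {χ : MulChar F ℂ} {f : F[X]}
    {A : Multiset ℂ} {M : Subfield ℂ} (hℓ : ℓ.Prime) (hχ : orderOf χ = ℓ)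
    (hp : ∃ k : ℕ, ((ringChar F : ℕ) : ZMod ℓ) ^ k = -1) (hf : 4 ≤ f.natDegree)
    (hsq : Squarefree f) (hfℓ : ¬ ℓ ∣ f.natDegree)
    (hA : IsFrobSE χ f A) (hnd : A.Nodup)
    (hM : ∀ z : ℂ, z ^ ℓ = 1 → z ∈ M) : Block (ringChar F) M A.toFinset := by
  classical
  change Pool.Agent.L5helper29.SE.IsFrobM χ f A at hA
  haveI : Fact ℓ.Prime := ⟨hℓ⟩
  haveI : Fact (ringChar F).Prime := ⟨CharP.char_is_prime F (ringChar F)⟩
  have hχℓ : χ ^ ℓ = 1 := by
    rw [← hχ]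
    exact pow_orderOf_eq_one χ
  have hχ1 : χ ≠ 1 := by
    rintro rfl
    rw [orderOf_one] at hχ
    exact hℓ.one_lt.ne hχ
  obtain ⟨m, -, hm⟩ := FiniteField.card F (ringChar F)
  have hc : ∀ _ : Unit, ¬ ℓ ∣ 1 := fun _ h => hℓ.one_lt.ne' (Nat.dvd_one.1 h)
  have hA' : ∀ _ : Unit, Pool.Agent.L5helper29.SE.IsFrobM (χ ^ 1) f A := fun _ => by
    rw [pow_one]
    exact hA
  have hmain := Pool.Agent.L5helper29.SE.main_data (J := Unit) (f := fun _ => f)
    (c := fun _ => 1) (A := fun _ => A) (d := f.natDegree) hχℓ hχ1 hc hf hfℓ (fun _ => hsq)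
    (fun _ => rfl) hA'
  obtain ⟨N, hN, -, h1⟩ := Pool.Agent.L5helper29.SE.pow_blocks (p := ringChar F) (J := Unit)
    (f := fun _ => f) (c := fun _ => 1) (A := fun _ => A) (d := f.natDegree) hχℓ hχ1 hc hf hfℓ
    (fun _ => hsq) (fun _ => rfl) hA'
  refine ⟨?_, ?_, ?_, ?_⟩
  · intro x hx h0
    rw [Multiset.mem_toFinset, h0] at hx
    exact hA.1 hx
  · intro x hx y hy
    rw [Multiset.mem_toFinset] at hx hy
    rw [(hmain ()).2 x hx, (hmain ()).2 y hy]
  · intro τ hτ x hx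
    rw [Multiset.mem_toFinset] at hx ⊢
    have h1 := Pool.Agent.L5helper29.SE.frobM_map hℓ.ne_zero hχℓ hA τ
      (fun z hz => hτ z (hM z hz))
    rw [← h1]
    exact Multiset.mem_map_of_mem _ hx
  · have h2 := h1 hp () true
    unfold Pool.Agent.L5helper29.SE.PS at h2
    rw [if_pos rfl] at h2
    refine ⟨2 * N, by omega, ((m : ℕ) * ((f.natDegree - 1) * N) : ℕ), ?_⟩
    rw [prod_toFinset' hnd, h2, hm, zpow_natCast]
    push_cast
    rw [← pow_mul]

end examples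

end Pool.Agent.L5helper29.ID
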